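import Pool.Agent.W125.SD.SUnit
import Pool.Agent.W347.SD.SB2
import Pool.Agent.W186.SD.CntD
import Pool.Agent.W186.DX.Main

set_option autoImplicit false

/-!
# Zeros of the derivatives of xi: transfer of zero counts
-/

namespace Pool.Agent.Q9.DS

open Complex Filter Topology Set
open Pool.Agent.H24R2.JP (XX HH Om)
open Pool.Agent.H986R2.K4 (xi)
open Pool.Agent.H986R2.K4.XiAux
open Pool.Agent.W186.SD.Cnt (Zer Exc num zer_fin num_eq num_mono order_eq)

/-- multiplicity -/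
noncomputable def mu (n : ℕ) (s : ℂ) : ℝ := (analyticOrderNatAt (iteratedDeriv n xi) s : ℝ)

lemma mu_nonneg (n : ℕ) (s : ℂ) : 0 ≤ mu n s := Nat.cast_nonneg _

lemma mu_pos {n : ℕ} {s : ℂ} (h : iteratedDeriv n xi s = 0) : 1 ≤ mu n s := by
  unfold mu
  rw [order_eq]
  exact_mod_cast Pool.Agent.W186.SD.Cnt.one_le_order ((zero_iff n s).1 h)

lemma win1 (n : ℕ) : ∃ C T0 : ℝ, 0 < C ∧ 2 ≤ T0 ∧ ∀ t : ℝ, T0 ≤ t → ∀ S : Finset ℂ,
    (∀ s ∈ S, iteratedDeriv n xi s = 0 ∧ |s.im - t| ≤ 1) → ∑ s ∈ S, mu n s ≤ C * Real.log t := by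
  obtain ⟨C, T0, hC, hT0, h⟩ := Pool.Agent.W125.SD.sunit Pool.Agent.W347.SD.sb2
  refine ⟨C, max T0 (Real.exp n), hC, hT0.trans (le_max_left _ _), fun t ht S hS => ?_⟩
  have g0 : T0 ≤ t := (le_max_left _ _).trans ht
  have g1 : Real.exp n ≤ t := (le_max_right _ _).trans ht
  have htp : 0 < t := by linarith
  have hl : (n : ℝ) ≤ Real.log t := by rwa [Real.le_log_iff_exp_le htp]
  have hn : (0 : ℝ) ≤ n := Nat.cast_nonneg n
  classical
  have key := h t n g0 (by linarith) (S.image fun s => s - 1 / 2) (by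
    intro w hw
    rw [Finset.mem_image] at hw
    obtain ⟨s, hs, rfl⟩ := hw
    obtain ⟨h1, h2⟩ := hS s hs
    exact ⟨by rw [half_im]; exact h2, (zero_iff n s).1 h1⟩)
  rw [Finset.sum_image (by
    intro a _ b _ hab
    simpa using hab)] at key
  refine le_trans (le_of_eq (Finset.sum_congr rfl fun s _ => ?_)) key
  unfold mu
  rw [order_eq]

/-- long windows -/
lemma win2 (n : ℕ) (K : ℝ) (hK : 1 ≤ K) : ∃ C T0 : ℝ, 0 < C ∧ 2 ≤ T0 ∧ ∀ T : ℝ, T0 ≤ T → ∀ u : ℝ, ∀ S : Finset ℂ,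
    (∀ s ∈ S, iteratedDeriv n xi s = 0 ∧ T0 ≤ s.im ∧ s.im ≤ T ∧ |s.im - u| ≤ K * Real.log T) →
    ∑ s ∈ S, mu n s ≤ C * Real.log T ^ 2 := by
  obtain ⟨C, T1, hC, hT1, h1⟩ := win1 n
  refine ⟨C * (2 * K + 1) * 2 ^ 2, max (T1 + 1) 3, by positivity, by linarith [le_max_right (T1 + 1) 3], ?_⟩
  intro T hT u S hS
  have g0 : T1 + 1 ≤ T := (le_max_left _ _).trans hT
  have g1 : 3 ≤ T := (le_max_right _ _).trans hT
  have hTp : 0 < T := by linarith
  have hl : 1 ≤ Real.log T := by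
    rw [Real.le_log_iff_exp_le hTp]
    have := Real.exp_one_lt_d9
    linarith
  obtain ⟨c, hc⟩ : ∃ c : ℝ, c = u - K * Real.log T := ⟨_, rfl⟩
  obtain ⟨N, hN⟩ : ∃ N : ℕ, N = ⌊2 * (K * Real.log T)⌋₊ + 1 := ⟨_, rfl⟩
  classical
  have hmaps : ∀ s ∈ S, ⌊s.im - c⌋₊ ∈ Finset.range N := by
    intro s hs
    obtain ⟨-, -, -, h4⟩ := hS s hs
    rw [abs_le] at h4
    rw [Finset.mem_range, hN, Nat.lt_succ_iff]
    apply Nat.floor_le_floor
    rw [hc]
    linarith
  rw [← Finset.sum_fiberwise_of_maps_to hmaps]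
  have hcell : ∀ j ∈ Finset.range N, ∑ s ∈ S with ⌊s.im - c⌋₊ = j, mu n s ≤ 2 * C * Real.log T := by
    intro j hj
    rcases (S.filter fun s => ⌊s.im - c⌋₊ = j).eq_empty_or_nonempty with he | ⟨s0, hs0⟩
    · rw [he, Finset.sum_empty]
      positivity
    · rw [Finset.mem_filter] at hs0
      obtain ⟨m1, m2, m3, m4⟩ := hS s0 hs0.1
      have m5 : T1 ≤ s0.im := by linarith [le_max_left (T1 + 1) 3]
      have k1 := h1 s0.im m5 (S.filter fun s => ⌊s.im - c⌋₊ = j) (by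
        intro s hs
        rw [Finset.mem_filter] at hs
        obtain ⟨n1, n2, n3, n4⟩ := hS s hs.1
        refine ⟨n1, ?_⟩
        rw [abs_le] at n4 m4
        have a1 : 0 ≤ s.im - c := by rw [hc]; linarith
        have a2 : 0 ≤ s0.im - c := by rw [hc]; linarith
        have a3 := Nat.floor_le a1
        have a4 := Nat.lt_floor_add_one (s.im - c)
        have a5 := Nat.floor_le a2
        have a6 := Nat.lt_floor_add_one (s0.im - c)
        rw [hs.2] at a3 a4
        rw [hs0.2] at a5 a6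
        rw [abs_le]
        constructor <;> linarith)
      refine k1.trans ?_
      have a7 : Real.log s0.im ≤ Real.log T := Real.log_le_log (by linarith) m3
      nlinarith
  refine (Finset.sum_le_sum hcell).trans ?_
  rw [Finset.sum_const, Finset.card_range, nsmul_eq_mul]
  have hNb : (N : ℝ) ≤ (2 * K + 1) * Real.log T := by
    rw [hN]
    push_cast
    have := Nat.floor_le (show 0 ≤ 2 * (K * Real.log T) by positivity)
    nlinarith
  calc (N : ℝ) * (2 * C * Real.log T) ≤ (2 * K + 1) * Real.log T * (2 * C * Real.log T) :=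
        mul_le_mul_of_nonneg_right hNb (by positivity)
    _ ≤ _ := by
        have : 0 ≤ C * (2 * K + 1) * Real.log T ^ 2 := by positivity
        nlinarith

/-- zeros with real part at least `σ` and imaginary part in `(0, T]` -/
def ZZ (n : ℕ) (σ T : ℝ) : Set ℂ := {s | iteratedDeriv n xi s = 0 ∧ σ ≤ s.re ∧ 0 < s.im ∧ s.im ≤ T}

/-- their number, with multiplicity -/
noncomputable def NN (n : ℕ) (σ T : ℝ) : ℕ := ∑ᶠ s ∈ ZZ n σ T, analyticOrderNatAt (iteratedDeriv n xi) s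

lemma zz_fin (n : ℕ) (σ T : ℝ) : (ZZ n σ T).Finite :=
  (zer_fin n T).subset fun _ h => ⟨h.1, h.2.2.1, h.2.2.2⟩

lemma nn_eq (n : ℕ) (σ T : ℝ) : (NN n σ T : ℝ) = ∑ s ∈ (zz_fin n σ T).toFinset, mu n s :=
  num_eq (n := n) (zz_fin n σ T)

/-- the transfer -/
theorem transfer (m n : ℕ) (σ ε : ℝ) (hσ : 1 / 2 ≤ σ) (hε : 0 < ε) : ∃ C : ℝ, 0 < C ∧ ∀ T : ℝ, 2 ≤ T →
    (NN m (σ + ε) T : ℝ) ≤ C * Real.log T ^ 2 * (NN n σ (2 * T) + 1) := by
  obtain ⟨K0, T0, h0⟩ := Pool.Agent.W186.DX.main.1 m n ε hε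
  obtain ⟨K, hK⟩ : ∃ K : ℝ, K = max K0 1 := ⟨_, rfl⟩
  have hK0 : K0 ≤ K := by rw [hK]; exact le_max_left _ _
  have hK1 : 1 ≤ K := by rw [hK]; exact le_max_right _ _
  obtain ⟨C, T1, hC, hT1, hw⟩ := win2 m K hK1
  -- K log x < x / 2 for large x
  obtain ⟨T2, hT2⟩ : ∃ T2 : ℝ, ∀ x : ℝ, T2 ≤ x → K * Real.log x ≤ x / 2 := by
    have h1 := Real.isLittleO_log_id_atTop.def (show (0 : ℝ) < 1 / (2 * K) by positivity)
    obtain ⟨T2, hT2⟩ := Filter.eventually_atTop.1 (h1.and (Filter.eventually_ge_atTop 1))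
    refine ⟨T2, fun x hx => ?_⟩
    obtain ⟨a1, a2⟩ := hT2 x hx
    rw [Real.norm_eq_abs, Real.norm_eq_abs, id, abs_of_nonneg (Real.log_nonneg a2), abs_of_nonneg (by linarith)] at a1
    calc K * Real.log x ≤ K * (1 / (2 * K) * x) := mul_le_mul_of_nonneg_left a1 (by linarith)
      _ = x / 2 := by field_simp
  obtain ⟨T3, hT3⟩ : ∃ T3 : ℝ, T3 = max (max T0 T1) (max T2 3) := ⟨_, rfl⟩
  have b0 : T0 ≤ T3 := by rw [hT3]; exact (le_max_left _ _).trans (le_max_left _ _)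
  have b1 : T1 ≤ T3 := by rw [hT3]; exact (le_max_right _ _).trans (le_max_left _ _)
  have b2 : T2 ≤ T3 := by rw [hT3]; exact (le_max_left _ _).trans (le_max_right _ _)
  have b3 : 3 ≤ T3 := by rw [hT3]; exact (le_max_right _ _).trans (le_max_right _ _)
  obtain ⟨B, hB⟩ : ∃ B : ℝ, B = ∑ s ∈ (zz_fin m (σ + ε) T3).toFinset, mu m s := ⟨_, rfl⟩
  have hB0 : 0 ≤ B := by rw [hB]; exact Finset.sum_nonneg fun s _ => mu_nonneg m s
  have hl2 : 0 < Real.log 2 := Real.log_pos (by norm_num)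
  refine ⟨C + B / Real.log 2 ^ 2, by positivity, fun T hT => ?_⟩
  have hlT : Real.log 2 ≤ Real.log T := Real.log_le_log (by norm_num) hT
  have hlT0 : 0 < Real.log T := hl2.trans_le hlT
  have hNN : (0 : ℝ) ≤ NN n σ (2 * T) := Nat.cast_nonneg _
  classical
  rw [nn_eq]
  obtain ⟨S, hS⟩ : ∃ S : Finset ℂ, S = (zz_fin m (σ + ε) T).toFinset := ⟨_, rfl⟩
  rw [← hS]
  have hSm : ∀ s ∈ S, iteratedDeriv m xi s = 0 ∧ σ + ε ≤ s.re ∧ 0 < s.im ∧ s.im ≤ T := by
    intro s hs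
    rw [hS, Set.Finite.mem_toFinset] at hs
    exact hs
  rw [← Finset.sum_filter_add_sum_filter_not S (fun s => s.im ≤ T3)]
  have p1 : ∑ s ∈ S with s.im ≤ T3, mu m s ≤ B := by
    rw [hB]
    refine Finset.sum_le_sum_of_subset_of_nonneg ?_ fun s _ _ => mu_nonneg m s
    intro s hs
    rw [Finset.mem_filter] at hs
    obtain ⟨c1, c2, c3, c4⟩ := hSm s hs.1
    rw [Set.Finite.mem_toFinset]
    exact ⟨c1, c2, c3, hs.2⟩
  have p2 : ∑ s ∈ S with ¬ s.im ≤ T3, mu m s ≤ C * Real.log T ^ 2 * NN n σ (2 * T) := by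
    -- the shadow
    have hch : ∀ s : ℂ, s ∈ (S.filter fun s => ¬ s.im ≤ T3) → ∃ s' : ℂ, s' ∈ (zz_fin n σ (2 * T)).toFinset ∧
        |s.im - s'.im| ≤ K * Real.log T := by
      intro s hs
      rw [Finset.mem_filter] at hs
      obtain ⟨hs1, hs2⟩ := hs
      push Not at hs2
      obtain ⟨c1, c2, c3, c4⟩ := hSm s hs1
      obtain ⟨s', d1, d2, d3⟩ := h0 s c1 (by linarith) (by rw [abs_of_pos c3]; linarith)
      rw [abs_of_pos c3] at d3
      have hls : 0 ≤ Real.log s.im := Real.log_nonneg (by linarith)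
      have d4 : K0 * Real.log s.im ≤ K * Real.log s.im := mul_le_mul_of_nonneg_right hK0 hls
      have d5 := hT2 s.im (by linarith)
      have d6 : K * Real.log s.im ≤ K * Real.log T :=
        mul_le_mul_of_nonneg_left (Real.log_le_log c3 c4) (by linarith)
      refine ⟨s', ?_, ?_⟩
      · rw [Set.Finite.mem_toFinset]
        rw [abs_le] at d3
        exact ⟨d1, by linarith, by linarith, by linarith⟩
      · rw [abs_sub_comm]
        linarith
    choose! f hf1 hf2 using hch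
    rw [← Finset.sum_fiberwise_of_maps_to hf1]
    have hcell : ∀ s' ∈ (zz_fin n σ (2 * T)).toFinset,
        ∑ s ∈ (S.filter fun s => ¬ s.im ≤ T3) with f s = s', mu m s ≤ C * Real.log T ^ 2 * mu n s' := by
      intro s' hs'
      rw [Set.Finite.mem_toFinset] at hs'
      have e1 : ∑ s ∈ (S.filter fun s => ¬ s.im ≤ T3) with f s = s', mu m s ≤ C * Real.log T ^ 2 := by
        rcases ((S.filter fun s => ¬ s.im ≤ T3).filter fun s => f s = s').eq_empty_or_nonempty with he | ⟨s0, hs0⟩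
        · rw [he, Finset.sum_empty]; positivity
        · rw [Finset.mem_filter, Finset.mem_filter] at hs0
          have hT3' : T1 ≤ T := by
            have := (hSm s0 hs0.1.1).2.2.2
            have := hs0.1.2
            push Not at this
            linarith
          refine hw T hT3' s'.im _ fun s hs => ?_
          rw [Finset.mem_filter] at hs
          obtain ⟨i1, i2⟩ := hs
          have i3 := hf2 s i1
          rw [i2] at i3
          rw [Finset.mem_filter] at i1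
          obtain ⟨c1, c2, c3, c4⟩ := hSm s i1.1
          have i4 := i1.2
          push Not at i4
          exact ⟨c1, by linarith, c4, i3⟩
      have e2 := mu_pos hs'.1
      have e3 : 0 ≤ C * Real.log T ^ 2 := by positivity
      nlinarith
    refine (Finset.sum_le_sum hcell).trans (le_of_eq ?_)
    rw [← Finset.mul_sum, nn_eq]
  have p3 : B ≤ B / Real.log 2 ^ 2 * Real.log T ^ 2 := by
    rw [div_mul_eq_mul_div, le_div_iff₀ (by positivity)]
    exact mul_le_mul_of_nonneg_left (pow_le_pow_left₀ hl2.le hlT 2) hB0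
  have p4 : 0 ≤ B / Real.log 2 ^ 2 * Real.log T ^ 2 * NN n σ (2 * T) := by positivity
  have p5 : 0 ≤ C * Real.log T ^ 2 := by positivity
  nlinarith

end Pool.Agent.Q9.DS
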