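import Pool.Agent.Q9.DS.Cnt
import Pool.Agent.W186.HZ.Fin

set_option autoImplicit false

namespace Pool.Agent.Q9.DS

open Complex Filter Topology Set
open Pool.Agent.H986R2.K4 (xi)
open Pool.Agent.W186.DX
open Pool.Agent.W186.HZ (af_iff Asy)

/-- finitely many zeros of the `n`-th derivative to the right of `θ + ε` -/
def AX (n : ℕ) (θ : ℝ) : Prop := ∀ ε : ℝ, 0 < ε → {s : ℂ | θ + ε < s.re ∧ iteratedDeriv n xi s = 0}.Finite

lemma ax_iff (n : ℕ) (y : ℝ) : AX n (1 / 2 + y) ↔ AF n y := by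
  have e : ∀ ε : ℝ, {s : ℂ | 1 / 2 + y + ε < s.re ∧ iteratedDeriv n xi s = 0} =
      (fun z : ℂ => z + 1 / 2) '' {z : ℂ | y + ε < z.re ∧ F n z = 0} := by
    intro ε
    ext s
    constructor
    · rintro ⟨h1, h2⟩
      refine ⟨s - 1 / 2, ⟨?_, (F_xi n s).1 h2⟩, by simp⟩
      rw [Pool.Agent.H986R2.K4.XiAux.half_re]
      linarith
    · rintro ⟨z, ⟨h1, h2⟩, rfl⟩
      have e : (z + 1 / 2 - 1 / 2 : ℂ) = z := by ring
      have hre : (z + 1 / 2).re = z.re + 1 / 2 := by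
        have := Pool.Agent.H986R2.K4.XiAux.half_re (z + 1 / 2)
        rw [e] at this
        linarith
      refine ⟨by rw [hre]; linarith, (F_xi n _).2 (by rw [e]; exact h2)⟩
  constructor
  · intro h ε hε
    have := h ε hε
    rw [e] at this
    exact Set.Finite.of_finite_image this (fun a _ b _ hab => by simpa using hab)
  · intro h ε hε
    rw [e]
    exact (h ε hε).image _

lemma asy_iff {θ : ℝ} (hθ : 1 / 2 ≤ θ) (n : ℕ) : Asy θ ↔ AX n θ := by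
  have e : θ = 1 / 2 + (θ - 1 / 2) := by ring
  have h1 := af_iff (y := θ - 1 / 2) (by linarith)
  rw [← e] at h1
  have h2 := ax_iff n (θ - 1 / 2)
  rw [← e] at h2
  rw [h2, ← h1]
  exact ⟨fun h => h.trans (by linarith) n, fun h => h.trans (by linarith) 0⟩

theorem main :
    (∀ (n : ℕ) (σ T : ℝ), (ZZ n σ T).Finite) ∧
    (∀ (m n : ℕ) (ε : ℝ), 0 < ε → ∃ K T : ℝ, ∀ s : ℂ, iteratedDeriv m xi s = 0 → 1 / 2 + ε ≤ s.re →
      T ≤ |s.im| → ∃ s' : ℂ, iteratedDeriv n xi s' = 0 ∧ s.re - ε < s'.re ∧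
        |s'.im - s.im| ≤ K * Real.log |s.im|) ∧
    (∀ (m n : ℕ) (σ ε : ℝ), 1 / 2 ≤ σ → 0 < ε → ∃ C : ℝ, 0 < C ∧ ∀ T : ℝ, 2 ≤ T →
      (NN m (σ + ε) T : ℝ) ≤ C * Real.log T ^ 2 * (NN n σ (2 * T) + 1)) ∧
    (∀ (n : ℕ) (θ : ℝ), 1 / 2 ≤ θ → (Asy θ ↔ AX n θ)) ∧
    ∀ n : ℕ, (∃ θ : ℝ, θ < 1 ∧ ∀ s : ℂ, θ < s.re → riemannZeta s ≠ 0) ↔
      ∃ θ : ℝ, θ < 1 ∧ {s : ℂ | θ < s.re ∧ iteratedDeriv n xi s = 0}.Finite :=
  ⟨zz_fin, Pool.Agent.W186.DX.main.1, transfer, fun n _ hθ => asy_iff hθ n, Pool.Agent.W186.DX.main.2⟩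

end Pool.Agent.Q9.DS
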